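import Mathlib
import Pool.Agent.V5helper65.EE.Final

/-!
# Powers of `e ^ e` are not powers of rational numbers close to `1`

Let `p > q ≥ 1` and `j ≥ 1` be integers and put `D = j (p - q)`. If `2 ^ 31 * D ^ 20 ≤ log log q`, then
`(e ^ e) ^ j` is not a power of `p / q`; in other words `e / log (p / q)` is not a rational number with
denominator `j`. In particular for every `D` the number `e ^ e` satisfies no relation
`(e ^ e) ^ j = (p / q) ^ m` with `0 < p - q ≤ D`, `1 ≤ j ≤ D` and `q` sufficiently large.

The earlier result `PowersNearOne` had the possible exceptions `4 ∣ j`, `4 ∣ p - q`,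
`v₂ j = v₂ m + v₂ (p - q)`, and no explicit bounds. They are excluded here with a second
approximation to `e`: a relation makes `2 m k / (j c)` (`2 c = p + q`, `2 k = p - q`) equal to a
convergent `r n / q n` of `e` with a common factor `t`, and then `3 t ^ 2 / ((2 n + 1) (j k) ^ 2)` is
itself a multiple of a convergent of `e`, since it is so close to `e`. The numerators and
denominators of these convergents are odd, so the `2`-adic valuations of `c` and `k` agree.
-/

set_option autoImplicit false

namespace Pool.Agent.Results.MP_58ae59_nt.NoPowersNearOne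

open Real Pool.Agent.V5helper65.EE

/-- **Powers of `e ^ e` are not powers of rational numbers close to `1`.** Let `p > q ≥ 1` and `j ≥ 1`
be integers with `2 ^ 31 * (j (p - q)) ^ 20 ≤ log log q`. Then `(e ^ e) ^ j ≠ (p / q) ^ m` for all `m`. -/
theorem result : ∀ p q j m : ℕ, 1 ≤ q → q < p → 1 ≤ j →
    2 ^ 31 * ((j * (p - q) : ℕ) : ℝ) ^ 20 ≤ Real.log (Real.log q) →
    (Real.exp (Real.exp 1)) ^ j ≠ ((p : ℝ) / (q : ℝ)) ^ m := by
  intro a b j m hb hab hj hD h
  -- reduce to lowest terms
  have hg : 0 < Nat.gcd a b := Nat.gcd_pos_of_pos_right a hb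
  obtain ⟨a', ha'⟩ := Nat.gcd_dvd_left a b
  obtain ⟨b', hb'⟩ := Nat.gcd_dvd_right a b
  set g : ℕ := Nat.gcd a b with hgd
  have hcop : Nat.Coprime a' b' := by
    have h1 : Nat.gcd (g * a') (g * b') = g := by rw [← ha', ← hb']
    rw [Nat.gcd_mul_left] at h1
    have h2 : g * Nat.gcd a' b' = g * 1 := by rw [h1, mul_one]
    exact Nat.eq_of_mul_eq_mul_left hg h2
  have hab' : b' < a' := by
    rw [ha', hb'] at hab
    exact lt_of_mul_lt_mul_left hab (Nat.zero_le g)
  have hsub : a - b = (a' - b') * g := by
    rw [ha', hb', Nat.sub_mul, mul_comm a' g, mul_comm b' g]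
  have hrat : ((a : ℝ) / (b : ℝ)) = (a' : ℝ) / b' := by
    rw [ha', hb']
    push_cast
    rw [mul_div_mul_left _ _ (by positivity)]
  rw [hrat] at h
  have hD' : 2 ^ 31 * ((j * (a' - b') : ℕ) : ℝ) ^ 20 ≤ log (log (b' : ℝ)) := by
    apply reduce (j * (a' - b')) g b' (Nat.mul_pos hj (by omega)) hg
    have e1 : j * (a' - b') * g = j * (a - b) := by rw [hsub]; ring
    have e2 : b' * g = b := by rw [mul_comm]; exact hb'.symm
    rw [e1, e2]
    exact hD
  exact partA a' b' j m hab' hcop hj
    (thr2 _ _ (Nat.mul_pos hj (by omega)) hD') h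

end Pool.Agent.Results.MP_58ae59_nt.NoPowersNearOne
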