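import Mathlib
import Pool.Agent.V5helper65.EE.Final

/-!
# Powers of `e ^ e` and powers of rational numbers in a wider neighbourhood of `1`

Let `p / q > 1` be a fraction in lowest terms and let `j ≥ 1` be an integer with
`2 ^ 40 * (j (p - q)) ^ 20 ≤ log q`. If `(e ^ e) ^ j = (p / q) ^ m`, then `4` divides `j` and `p - q`, and
`v₂ j = v₂ m + v₂ (p - q)`. In particular (`j = 1`) the number `e ^ e` is not a power of any rational
number `p / q` with `0 < p - q ≤ (log q) ^ (1 / 20) / 4`.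
-/

set_option autoImplicit false

namespace Pool.Agent.Results.MP_58ae59_nt.PowersInLogRange

open Real Pool.Agent.V5helper65.EE

/-- Let `p > q ≥ 1` be coprime and `j ≥ 1` with `2 ^ 40 * (j (p - q)) ^ 20 ≤ log q`. If
`(e ^ e) ^ j = (p / q) ^ m`, then `4` divides `j` and `p - q`, and `v₂ j = v₂ m + v₂ (p - q)`. -/
theorem result : ∀ p q j m : ℕ, 1 ≤ q → q < p → Nat.Coprime p q → 1 ≤ j →
    2 ^ 40 * ((j * (p - q) : ℕ) : ℝ) ^ 20 ≤ Real.log q →
    (Real.exp (Real.exp 1)) ^ j = ((p : ℝ) / (q : ℝ)) ^ m →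
    4 ∣ j ∧ 4 ∣ p - q ∧ padicValNat 2 j = padicValNat 2 m + padicValNat 2 (p - q) := by
  intro a b j m hb hab hcop hj hD h
  exact partB a b j m hab hcop hj (thr1 _ _ (Nat.mul_pos hj (by omega)) hb hD) h

end Pool.Agent.Results.MP_58ae59_nt.PowersInLogRange
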